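import Pool.Agent.N513.CE.Stm

/-!
# CE/LRF: the product of the lamplighter group over `G` and a free group is residually finite and
finitely generated when `G` is.
-/

set_option autoImplicit false

namespace Pool.Agent.N170.CE

open Pool.Agent.N513.CE

/-! ### Free groups: nontrivial elements are seen by finite permutation groups -/

section free


variable {X : Type}

open Classical in
/-- The finite set of suffix products of a word. -/
noncomputable def suf (L : List (X × Bool)) : Finset (FreeGroup X) :=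
  (L.tails.map FreeGroup.mk).toFinset

theorem mem_suf (L L' : List (X × Bool)) (h : L' <:+ L) : FreeGroup.mk L' ∈ suf L := by
  classical
  simp only [suf, List.mem_toFinset, List.mem_map, List.mem_tails]
  exact ⟨L', h, rfl⟩

/-- Left multiplication by a generator as a bijection between two subsets of the suffix products. -/
def pact (L : List (X × Bool)) (x : X) :
    {u : {u // u ∈ suf L} // FreeGroup.of x * u.1 ∈ suf L} ≃
      {u : {u // u ∈ suf L} // (FreeGroup.of x)⁻¹ * u.1 ∈ suf L} where
  toFun := fun u => ⟨⟨FreeGroup.of x * u.1.1, u.2⟩, by simp⟩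
  invFun := fun u => ⟨⟨(FreeGroup.of x)⁻¹ * u.1.1, u.2⟩, by simp⟩
  left_inv := fun u => by ext; simp
  right_inv := fun u => by ext; simp

open Classical in
/-- The permutation by which a generator acts on the suffix products. -/
noncomputable def act1 (L : List (X × Bool)) (x : X) : Equiv.Perm {u // u ∈ suf L} :=
  (pact L x).extendSubtype

theorem act1_apply (L : List (X × Bool)) (x : X) (u : {u // u ∈ suf L})
    (h : FreeGroup.of x * u.1 ∈ suf L) : act1 L x u = ⟨FreeGroup.of x * u.1, h⟩ := by
  classical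
  exact Equiv.extendSubtype_apply_of_mem (pact L x) u h

theorem act_suffix (L : List (X × Bool)) : ∀ (L' : List (X × Bool)) (_ : L' <:+ L),
    (FreeGroup.lift (act1 L) (FreeGroup.mk L') ⟨1, mem_suf L [] (List.nil_suffix)⟩).1 =
      FreeGroup.mk L' := by
  intro L'
  induction L' with
  | nil =>
    intro h
    rw [← FreeGroup.one_eq_mk, map_one]
    rfl
  | cons a L' ih =>
    intro h
    have h' : L' <:+ L := (List.suffix_cons a L').trans h
    obtain ⟨x, b⟩ := a
    have hmk : FreeGroup.mk ((x, b) :: L') = FreeGroup.mk [(x, b)] * FreeGroup.mk L' := by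
      rw [FreeGroup.mul_mk]; rfl
    have hmem := mem_suf L _ h
    have ih2 : FreeGroup.lift (act1 L) (FreeGroup.mk L') ⟨1, mem_suf L [] (List.nil_suffix)⟩ =
      ⟨FreeGroup.mk L', mem_suf L L' h'⟩ := Subtype.ext (ih h')
    rw [hmk, map_mul, Equiv.Perm.mul_apply, ih2]
    rw [hmk] at hmem
    cases b with
    | true =>
      have h1 : FreeGroup.mk [(x, true)] = FreeGroup.of x := rfl
      rw [h1] at hmem
      rw [h1, FreeGroup.lift_apply_of, act1_apply L x _ hmem]
    | false =>
      have h1 : FreeGroup.mk [(x, false)] = (FreeGroup.of x)⁻¹ := rfl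
      rw [h1] at hmem
      rw [h1, map_inv, FreeGroup.lift_apply_of]
      have h2 : act1 L x ⟨(FreeGroup.of x)⁻¹ * FreeGroup.mk L', hmem⟩ =
          ⟨FreeGroup.mk L', mem_suf L L' h'⟩ := by
        rw [act1_apply L x _ (by simpa using mem_suf L L' h')]
        apply Subtype.ext
        simp
      rw [← h2, ← Equiv.Perm.mul_apply, inv_mul_cancel]
      rfl

theorem free_sep (w : FreeGroup X) (hw : w ≠ 1) :
    ∃ (B : Type) (_ : Fintype B) (_ : DecidableEq B) (φ : FreeGroup X →* Equiv.Perm B), φ w ≠ 1 := by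
  classical
  obtain ⟨L, rfl⟩ : ∃ L, FreeGroup.mk L = w := Quot.exists_rep w
  refine ⟨{u // u ∈ suf L}, inferInstance, inferInstance, FreeGroup.lift (act1 L), ?_⟩
  intro h
  have h1 := act_suffix L L List.suffix_rfl
  rw [h] at h1
  exact hw h1.symm

end free

/-! ### Residual finiteness from the separation of points -/

/-- nontrivial elements survive in finite quotients -/
def Sp (G : Type) [Group G] : Prop :=
  ∀ x : G, x ≠ 1 → ∃ (Q : Type) (_ : Group Q) (_ : Finite Q) (φ : G →* Q), φ x ≠ 1

theorem rf_of_sp {G : Type} [Group G] (h : Sp G) : RF G := by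
  classical
  intro T
  have h' : ∀ p : T × T, ∃ (Q : Type) (_ : Group Q) (_ : Finite Q) (φ : G →* Q),
      φ p.1.1 = φ p.2.1 → p.1.1 = p.2.1 := by
    intro p
    by_cases hp : p.1.1 = p.2.1
    · exact ⟨Unit, inferInstance, inferInstance, 1, fun _ => hp⟩
    · obtain ⟨Q, i1, i2, φ, hφ⟩ := h (p.1.1 * p.2.1⁻¹) (fun hh => hp (mul_inv_eq_one.1 hh))
      refine ⟨Q, i1, i2, φ, fun hh => ?_⟩
      exfalso
      apply hφ
      rw [map_mul, map_inv, hh, mul_inv_cancel]
  choose Q i1 i2 φ hφ using h'
  refine ⟨∀ p : T × T, Q p, inferInstance, inferInstance, MonoidHom.pi φ, ?_⟩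
  intro x hx y hy hxy
  have := congrFun hxy (⟨x, hx⟩, ⟨y, hy⟩)
  exact hφ (⟨x, hx⟩, ⟨y, hy⟩) this

theorem sp_of_rf {G : Type} [Group G] (h : RF G) : Sp G := by
  classical
  intro x hx
  obtain ⟨Q, i1, i2, φ, hφ⟩ := h {x, 1}
  refine ⟨Q, i1, i2, φ, fun hh => hx ?_⟩
  apply hφ (by simp) (by simp)
  rw [hh, map_one]

theorem sp_prod {G H : Type} [Group G] [Group H] (hG : Sp G) (hH : Sp H) : Sp (G × H) := by
  rintro ⟨g, h⟩ hx
  by_cases hg : g = 1
  · subst hg
    have hh : h ≠ 1 := by
      rintro rfl
      exact hx rfl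
    obtain ⟨Q, i1, i2, φ, hφ⟩ := hH h hh
    exact ⟨Q, i1, i2, φ.comp (MonoidHom.snd G H), hφ⟩
  · obtain ⟨Q, i1, i2, φ, hφ⟩ := hG g hg
    exact ⟨Q, i1, i2, φ.comp (MonoidHom.fst G H), hφ⟩

theorem sp_free (X : Type) : Sp (FreeGroup X) := by
  intro w hw
  obtain ⟨B, h1, h2, φ, hφ⟩ := free_sep w hw
  exact ⟨Equiv.Perm B, inferInstance, inferInstance, φ, hφ⟩

/-! ### The lamplighter group -/

section lamp

variable {G Q : Type} [Group G] [Group Q]

/-- pushing the lamps forward -/
noncomputable def pf (π : G →* Q) :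
    Multiplicative (G →₀ ZMod 2) →* Multiplicative (Q →₀ ZMod 2) :=
  AddMonoidHom.toMultiplicative (Finsupp.mapDomain.addMonoidHom π)

theorem pf_apply (π : G →* Q) (f : G →₀ ZMod 2) :
    pf π (Multiplicative.ofAdd f) = Multiplicative.ofAdd (Finsupp.mapDomain π f) := rfl

theorem shf_apply (g : G) (f : G →₀ ZMod 2) :
    shf G g (Multiplicative.ofAdd f) =
      Multiplicative.ofAdd (Finsupp.mapDomain (fun x => g * x) f) := by
  show Multiplicative.ofAdd (Finsupp.equivMapDomain (Equiv.mulLeft g) f) = _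
  rw [Finsupp.equivMapDomain_eq_mapDomain]
  rfl

theorem pf_shf (π : G →* Q) (g : G) :
    (pf π).comp (shf G g).toMonoidHom = (shf Q (π g)).toMonoidHom.comp (pf π) := by
  refine MonoidHom.ext fun f => ?_
  obtain ⟨f, rfl⟩ := Multiplicative.ofAdd.surjective f
  show pf π (shf G g (Multiplicative.ofAdd f)) = shf Q (π g) (pf π (Multiplicative.ofAdd f))
  rw [shf_apply, pf_apply, pf_apply, shf_apply, ← Finsupp.mapDomain_comp,
    ← Finsupp.mapDomain_comp]
  congr 2
  funext x
  simp

/-- the map between lamplighter groups -/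
noncomputable def mp (π : G →* Q) : LL G →* LL Q :=
  SemidirectProduct.map (pf π) π (pf_shf π)

end lamp

instance finite_LL {Q : Type} [Group Q] [Finite Q] : Finite (LL Q) := by
  have : Finite (Multiplicative (Q →₀ ZMod 2)) :=
    Finite.of_equiv (Q → ZMod 2) (Finsupp.equivFunOnFinite.symm.trans Multiplicative.ofAdd)
  exact Finite.of_equiv (Multiplicative (Q →₀ ZMod 2) × Q) SemidirectProduct.equivProd.symm

theorem sp_LL {G : Type} [Group G] (hG : RF G) : Sp (LL G) := by
  classical
  intro x hx
  by_cases hr : x.right = 1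
  · have hl : x.left ≠ 1 := by
      intro hl
      exact hx (SemidirectProduct.ext hl hr)
    set f : G →₀ ZMod 2 := x.left.toAdd with hf
    have hf0 : f ≠ 0 := fun h0 => hl (by rw [← ofAdd_toAdd x.left, ← hf, h0]; rfl)
    obtain ⟨Q, i1, i2, π, hπ⟩ := hG f.support
    refine ⟨LL Q, inferInstance, inferInstance, mp π, fun hh => ?_⟩
    have h1 : pf π x.left = 1 := congrArg SemidirectProduct.left hh
    rw [← ofAdd_toAdd x.left, ← hf, pf_apply] at h1
    have h2 : Finsupp.mapDomain π f = 0 := h1
    apply hf0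
    obtain ⟨a, ha⟩ := Finsupp.ne_iff.1 hf0
    have ha' : a ∈ f.support := by simpa using ha
    exfalso
    have h3 := Finsupp.mapDomain_apply' (f.support : Set G) f (subset_refl _) hπ ha'
    rw [h2] at h3
    exact ha h3.symm
  · obtain ⟨Q, i1, i2, φ, hφ⟩ := sp_of_rf hG x.right hr
    exact ⟨Q, i1, i2, φ.comp SemidirectProduct.rightHom, hφ⟩

/-! ### Finite generation -/

theorem fg_LL {G : Type} [Group G] (hG : Group.FG G) : Group.FG (LL G) := by
  classical
  obtain ⟨S, hS⟩ := hG.out
  refine ⟨⟨insert (SemidirectProduct.inl (Multiplicative.ofAdd (Finsupp.single 1 1)))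
    (S.image SemidirectProduct.inr), ?_⟩⟩
  set K : Subgroup (LL G) := Subgroup.closure _ with hK
  have hr : ∀ g : G, (SemidirectProduct.inr g : LL G) ∈ K := by
    intro g
    have : (⊤ : Subgroup G) ≤ K.comap SemidirectProduct.inr := by
      rw [← hS, Subgroup.closure_le]
      intro s hs
      refine Subgroup.subset_closure ?_
      simp only [Finset.coe_insert, Finset.coe_image]
      exact Or.inr ⟨s, hs, rfl⟩
    exact this (Subgroup.mem_top g)
  have h0 : (SemidirectProduct.inl (Multiplicative.ofAdd (Finsupp.single (1 : G) (1 : ZMod 2))) : LL G)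
      ∈ K := Subgroup.subset_closure (by simp)
  have h1 : ∀ g : G, (SemidirectProduct.inl
      (Multiplicative.ofAdd (Finsupp.single g (1 : ZMod 2))) : LL G) ∈ K := by
    intro g
    have := K.mul_mem (K.mul_mem (hr g) h0) (K.inv_mem (hr g))
    rw [← map_inv, ← SemidirectProduct.inl_aut, shf_apply, Finsupp.mapDomain_single,
      mul_one] at this
    exact this
  have h2 : ∀ g : G, ∀ c : ZMod 2, (SemidirectProduct.inl
      (Multiplicative.ofAdd (Finsupp.single g c)) : LL G) ∈ K := by
    intro g c
    fin_cases c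
    · have : (Finsupp.single g (0 : ZMod 2)) = 0 := Finsupp.single_zero g
      show SemidirectProduct.inl (Multiplicative.ofAdd (Finsupp.single g (0 : ZMod 2))) ∈ K
      rw [this, ofAdd_zero, map_one]
      exact K.one_mem
    · exact h1 g
  have h3 : ∀ f : G →₀ ZMod 2, (SemidirectProduct.inl (Multiplicative.ofAdd f) : LL G) ∈ K := by
    intro f
    induction f using Finsupp.induction with
    | zero =>
      rw [ofAdd_zero, map_one]
      exact K.one_mem
    | single_add a b f _ _ ih =>
      rw [ofAdd_add, map_mul]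
      exact K.mul_mem (h2 a b) ih
  rw [eq_top_iff]
  intro x _
  rw [← SemidirectProduct.inl_left_mul_inr_right x]
  exact K.mul_mem (h3 x.left.toAdd) (hr x.right)

theorem t_LRF : S_LRF := by
  intro G _ n hG hfg
  refine ⟨rf_of_sp (sp_prod (sp_LL hG) (sp_free _)), ?_⟩
  have := fg_LL hfg
  infer_instance

end Pool.Agent.N170.CE
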